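import Mathlib
import Pool.Agent.Y16.AF.Defs
import Pool.Agent.Y274.YMTan

/-!
The Taylor expansion of the second derivative of a plaquette term (job AF-TAY2).
-/

set_option autoImplicit false

open MeasureTheory Matrix Asymptotics Filter
open scoped Matrix.Norms.Frobenius Topology
open Pool.Agent.Y16.Gluon Pool.Agent.Y16.AF

namespace Pool.Agent.Y454.AF

noncomputable section

variable {N n : ℕ} {G : Subgroup (UU N)}

/-! ### The real part of the trace -/

/-- real part of the trace -/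
def rt (N : ℕ) : Mt N →ₗ[ℝ] ℝ where
  toFun M := (trace M).re
  map_add' A B := by rw [trace_add, Complex.add_re]
  map_smul' c A := by
    rw [trace_smul, Complex.real_smul, Complex.re_ofReal_mul]
    rfl

theorem rt_apply (M : Mt N) : rt N M = (trace M).re := rfl

theorem rt_comm (A B : Mt N) : rt N (A * B) = rt N (B * A) := by
  rw [rt_apply, rt_apply, trace_mul_comm]

theorem rt_conj (A : Mt N) : rt N Aᴴ = rt N A := by
  rw [rt_apply, rt_apply, trace_conjTranspose]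
  simp

theorem rt_sq (A : Mt N) : rt N (Aᴴ * A) = ‖A‖ ^ 2 := by
  have h1 : ‖A‖ ^ 2 = ∑ i, ∑ j, ‖A i j‖ ^ 2 := by
    rw [frobenius_norm_def, ← Real.rpow_natCast, ← Real.rpow_mul]
    · norm_num
    · exact Finset.sum_nonneg fun i _ => Finset.sum_nonneg fun j _ => by positivity
  rw [h1, rt_apply, trace, Complex.re_sum, Finset.sum_comm]
  refine Finset.sum_congr rfl fun i _ => ?_
  rw [diag_apply, mul_apply, Complex.re_sum]
  refine Finset.sum_congr rfl fun j _ => ?_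
  rw [conjTranspose_apply, ← Complex.normSq_eq_norm_sq, Complex.star_def,
    ← Complex.normSq_eq_conj_mul_self, Complex.ofReal_re]

/-! ### The group -/

theorem mt_mul (g h : G) : mt (g * h) = mt g * mt h := rfl

theorem mt_one : mt (1 : G) = 1 := rfl

theorem mt_inv (g : G) : mt g⁻¹ = (mt g)ᴴ := rfl

theorem mt_unit (g : G) : mt g * (mt g)ᴴ = 1 := Matrix.mem_unitaryGroup_iff.1 (g : UU N).2

theorem mt_unit' (g : G) : (mt g)ᴴ * mt g = 1 := Matrix.mem_unitaryGroup_iff'.1 (g : UU N).2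

theorem mt_norm (g : G) : ‖mt g‖ ≤ N + 1 := by
  have h1 : ‖mt g‖ ^ 2 = N := by
    rw [← rt_sq, mt_unit', rt_apply, trace_one]
    simp
  have h2 : (0 : ℝ) ≤ N := Nat.cast_nonneg _
  nlinarith [norm_nonneg (mt g)]

/-! ### Lie algebra -/

theorem skewT {T : Mt N} {e : ℝ → G} (he : ∀ t, mt (e t) = NormedSpace.exp (t • T)) : Tᴴ = -T :=
  Pool.Agent.Y274.YMTan.skew (G := G) T fun t => ⟨e t, he t⟩

theorem skewX (B : LieBasis G n) (a : Fin n) : (B.X a)ᴴ = -B.X a := skewT (B.ex_eq a)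

theorem deriv_mem {S : Submodule ℝ (Mt N)} {c : ℝ → Mt N} {Y : Mt N} (hc : ∀ t, c t ∈ S)
    (hY : HasDerivAt c Y 0) : Y ∈ S := by
  by_contra hne
  obtain ⟨f, hf, hS⟩ := Submodule.exists_le_ker_of_notMem hne
  set F := LinearMap.toContinuousLinearMap f with hF
  have h1 : HasDerivAt (fun t => F (c t)) (F Y) 0 := F.hasFDerivAt.comp_hasDerivAt (0 : ℝ) hY
  have h2 : (fun t => F (c t)) = fun _ => 0 := by
    funext t
    exact hS (hc t)
  rw [h2] at h1
  exact hf (h1.unique (hasDerivAt_const (0 : ℝ) (0 : ℝ)))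

theorem conj_mem (B : LieBasis G n) (g : G) (a : Fin n) :
    mt g * B.X a * (mt g)ᴴ ∈ Submodule.span ℝ (Set.range B.X) := by
  refine B.full _ fun t => ⟨g * B.ex a t * g⁻¹, ?_⟩
  have hu : IsUnit (mt g) := ⟨⟨mt g, (mt g)ᴴ, mt_unit g, mt_unit' g⟩, rfl⟩
  have hinv : (mt g)⁻¹ = (mt g)ᴴ := Matrix.inv_eq_right_inv (mt_unit g)
  have h1 := Matrix.exp_conj (mt g) (t • B.X a) hu
  rw [hinv, mul_smul_comm, smul_mul_assoc] at h1
  rw [h1, mt_mul, mt_mul, mt_inv, B.ex_eq]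

/-- the adjoint action -/
def Jl (T : Mt N) : Mt N →ₗ[ℝ] Mt N where
  toFun Y := T * Y - Y * T
  map_add' A B := by
    rw [mul_add, add_mul]
    abel
  map_smul' c A := by
    rw [mul_smul_comm, smul_mul_assoc, RingHom.id_apply, smul_sub]

theorem Jl_apply (T Y : Mt N) : Jl T Y = T * Y - Y * T := rfl

theorem brk_mem (B : LieBasis G n) {T : Mt N} {e : ℝ → G}
    (he : ∀ t, mt (e t) = NormedSpace.exp (t • T)) (b : Fin n) :
    Jl T (B.X b) ∈ Submodule.span ℝ (Set.range B.X) := by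
  have hT := skewT he
  have h1 : HasDerivAt (fun t : ℝ => NormedSpace.exp (t • T)) T 0 := by
    have h2 := hasDerivAt_exp_smul_const (𝕂 := ℝ) T (0 : ℝ)
    rwa [zero_smul, NormedSpace.exp_zero, one_mul] at h2
  have h2 : HasDerivAt (fun t : ℝ => NormedSpace.exp (t • (-T))) (-T) 0 := by
    have h2 := hasDerivAt_exp_smul_const (𝕂 := ℝ) (-T) (0 : ℝ)
    rwa [zero_smul, NormedSpace.exp_zero, one_mul] at h2
  have h3 : HasDerivAt (fun t : ℝ => NormedSpace.exp (t • T) * B.X b * NormedSpace.exp (t • (-T)))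
      (Jl T (B.X b)) 0 := by
    refine ((h1.mul_const (B.X b)).mul h2).congr_deriv ?_
    rw [zero_smul, zero_smul, NormedSpace.exp_zero, Jl_apply]
    simp only [mul_one, one_mul, mul_neg]
    rw [sub_eq_add_neg]
  refine deriv_mem (fun t => ?_) h3
  have h4 := conj_mem B (e t) b
  have h5 : (mt (e t))ᴴ = NormedSpace.exp (t • (-T)) := by
    rw [he, ← Matrix.exp_conjTranspose, conjTranspose_smul, hT]
    simp
  rwa [h5, he] at h4

theorem P_eq (B : LieBasis G n) (g : G) :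
    Pool.Agent.Y274.YMTan.P B.X (mt g) = ∑ a, co B g a • B.X a := rfl

theorem Jl_X (B : LieBasis G n) {T : Mt N} {e : ℝ → G}
    (he : ∀ t, mt (e t) = NormedSpace.exp (t • T)) (b : Fin n) :
    Jl T (B.X b) = ∑ a, Jm B T a b • B.X a :=
  (Pool.Agent.Y274.YMTan.P_span B.X B.orth _ (brk_mem B he b)).symm

/-- `T` acts twice -/
def JJ (T : Mt N) : Mt N →ₗ[ℝ] Mt N := (Jl T).comp (Jl T)

theorem JJ_apply (T Y : Mt N) : JJ T Y = T * (T * Y - Y * T) - (T * Y - Y * T) * T := rfl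

/-- the form of the square of the adjoint action -/
def bet (T : Mt N) : Mt N →ₗ[ℝ] Mt N →ₗ[ℝ] ℝ :=
  LinearMap.mk₂ ℝ (fun X Y => rt N (X * JJ T Y))
    (fun a b c => by rw [add_mul, map_add]) (fun c a b => by rw [smul_mul_assoc, map_smul])
    (fun a b c => by rw [map_add, mul_add, map_add])
    (fun c a b => by rw [map_smul, mul_smul_comm, map_smul])

theorem bet_apply (T X Y : Mt N) : bet T X Y = rt N (X * JJ T Y) := rfl

/-- the form of the square of `T` -/
def gam (T : Mt N) : Mt N →ₗ[ℝ] Mt N →ₗ[ℝ] ℝ :=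
  LinearMap.mk₂ ℝ (fun X Y => rt N (T * T * (X * Y + Y * X)))
    (fun a b c => by
      rw [← map_add]
      congr 1
      noncomm_ring)
    (fun c a b => by
      rw [← map_smul]
      congr 1
      rw [smul_mul_assoc, mul_smul_comm, ← smul_add, mul_smul_comm])
    (fun a b c => by
      rw [← map_add]
      congr 1
      noncomm_ring)
    (fun c a b => by
      rw [← map_smul]
      congr 1
      rw [smul_mul_assoc, mul_smul_comm, ← smul_add, mul_smul_comm])

theorem gam_apply (T X Y : Mt N) : gam T X Y = rt N (T * T * (X * Y + Y * X)) := rfl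

theorem bet_symm (T X Y : Mt N) : bet T X Y = bet T Y X := by
  rw [bet_apply, bet_apply, JJ_apply, JJ_apply]
  have e1 : X * (T * (T * Y - Y * T) - (T * Y - Y * T) * T) =
      X * (T * T * Y) - X * (T * Y * T) - X * (T * Y * T) + X * (Y * T * T) := by noncomm_ring
  have e2 : Y * (T * (T * X - X * T) - (T * X - X * T) * T) =
      Y * (T * T * X) - Y * (T * X * T) - Y * (T * X * T) + Y * (X * T * T) := by noncomm_ring
  rw [e1, e2]
  simp only [map_add, map_sub]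
  have f1 : rt N (X * (T * T * Y)) = rt N (Y * (X * T * T)) := by
    rw [show X * (T * T * Y) = (X * T * T) * Y by noncomm_ring, rt_comm]
  have f2 : rt N (X * (T * Y * T)) = rt N (Y * (T * X * T)) := by
    rw [show X * (T * Y * T) = (X * T) * (Y * T) by noncomm_ring, rt_comm]
    congr 1
    noncomm_ring
  have f3 : rt N (X * (Y * T * T)) = rt N (Y * (T * T * X)) := by
    rw [rt_comm]
    congr 1
    noncomm_ring
  rw [f1, f2, f3]
  ring

theorem Jm_sq (B : LieBasis G n) {T : Mt N} {e : ℝ → G}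
    (he : ∀ t, mt (e t) = NormedSpace.exp (t • T)) (a b : Fin n) :
    (Jm B T * Jm B T) a b = -bet T (B.X a) (B.X b) := by
  have h1 : JJ T (B.X b) = ∑ c, Jm B T c b • Jl T (B.X c) := by
    show Jl T (Jl T (B.X b)) = _
    rw [Jl_X B he b, map_sum]
    refine Finset.sum_congr rfl fun c _ => ?_
    rw [map_smul]
  have h2 : -bet T (B.X a) (B.X b) = rt N ((B.X a)ᴴ * JJ T (B.X b)) := by
    rw [bet_apply, skewX, neg_mul, map_neg]
  rw [h2, h1, Finset.mul_sum, map_sum, mul_apply]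
  refine Finset.sum_congr rfl fun c _ => ?_
  rw [mul_smul_comm, map_smul, smul_eq_mul, mul_comm]
  rfl

theorem eM_eq (B : LieBasis G n) {T : Mt N} {e : ℝ → G}
    (he : ∀ t, mt (e t) = NormedSpace.exp (t • T)) (a b : Fin n) :
    eM B T a b = -(1 / 2) * gam T (B.X a) (B.X b) + 1 / 4 * bet T (B.X a) (B.X b) := by
  have h1 : eM B T a b = -(1 / 2) * gam T (B.X a) (B.X b) - 1 / 4 * (Jm B T * Jm B T) a b := rfl
  rw [h1, Jm_sq B he]
  ring

/-- the coordinates of an element -/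
def cA' (B : LieBasis G n) (g : G) : Mt N := ∑ a, co B g a • B.X a

theorem form_sum (B : LieBasis G n) (F : Mt N →ₗ[ℝ] Mt N →ₗ[ℝ] ℝ) (g h : G) :
    ∑ a, ∑ b, F (B.X a) (B.X b) * (co B g a * co B h b) = F (cA' B g) (cA' B h) := by
  unfold cA'
  simp only [map_sum, LinearMap.sum_apply, map_smul, LinearMap.smul_apply, smul_eq_mul]
  rw [Finset.sum_comm]
  refine Finset.sum_congr rfl fun a _ => ?_
  rw [Finset.mul_sum]
  refine Finset.sum_congr rfl fun b _ => ?_
  ring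

/-- the quadratic form of a plaquette -/
def qf (B : LieBasis G n) (T : Mt N) (α τ : ℝ) (g : Fin 4 → G) : ℝ :=
  1 / 2 * ∑ i, ∑ j, ∑ a, ∑ b, (rc α τ i j * (-(Jm B T * Jm B T)) a b + α ^ 2 * eM B T a b) *
    (co B (g i) a * co B (g j) b)

theorem qf_eq (B : LieBasis G n) {T : Mt N} {e : ℝ → G}
    (he : ∀ t, mt (e t) = NormedSpace.exp (t • T)) (α τ : ℝ) (g : Fin 4 → G) :
    qf B T α τ g = -(α ^ 2 / 4) * gam T (∑ i, cA' B (g i)) (∑ i, cA' B (g i)) -
      (α * τ + τ ^ 2) * bet T (cA' B (g 0)) (cA' B (g 1) + cA' B (g 2) + cA' B (g 3)) := by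
  have h1 : ∀ i j, ∑ a, ∑ b, (rc α τ i j * (-(Jm B T * Jm B T)) a b + α ^ 2 * eM B T a b) *
      (co B (g i) a * co B (g j) b) = (rc α τ i j + α ^ 2 / 4) * bet T (cA' B (g i)) (cA' B (g j)) -
      α ^ 2 / 2 * gam T (cA' B (g i)) (cA' B (g j)) := by
    intro i j
    rw [← form_sum, ← form_sum, Finset.mul_sum, Finset.mul_sum, ← Finset.sum_sub_distrib]
    refine Finset.sum_congr rfl fun a _ => ?_
    rw [Finset.mul_sum, Finset.mul_sum, ← Finset.sum_sub_distrib]
    refine Finset.sum_congr rfl fun b _ => ?_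
    rw [neg_apply, Jm_sq B he, eM_eq B he]
    ring
  unfold qf
  simp only [h1]
  simp only [Fin.sum_univ_four, rc, map_add, LinearMap.add_apply]
  rw [bet_symm T (cA' B (g 1)) (cA' B (g 0)), bet_symm T (cA' B (g 2)) (cA' B (g 0)),
    bet_symm T (cA' B (g 3)) (cA' B (g 0))]
  simp
  ring

/-! ### Asymptotics -/

section asymp

/-- the size of the group elements of a plaquette -/
def dd (g : Fin 4 → G) : ℝ := ∑ i, ‖mt (g i) - 1‖

theorem dd_nonneg (g : Fin 4 → G) : 0 ≤ dd g := Finset.sum_nonneg fun _ _ => norm_nonneg _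

theorem le_dd (g : Fin 4 → G) (i : Fin 4) : ‖mt (g i) - 1‖ ≤ dd g :=
  Finset.single_le_sum (f := fun i => ‖mt (g i) - 1‖) (fun _ _ => norm_nonneg _)
    (Finset.mem_univ i)

theorem dd_O_one : (fun g : Fin 4 → G => dd g) =O[⊤] (fun _ => (1 : ℝ)) := by
  rw [isBigO_top]
  refine ⟨4 * (N + 1 + ‖(1 : Mt N)‖), fun g => ?_⟩
  have h0 : ‖(1 : ℝ)‖ = 1 := norm_one
  rw [Real.norm_of_nonneg (dd_nonneg g), h0, mul_one]
  have h1 : ∀ i, ‖mt (g i) - 1‖ ≤ N + 1 + ‖(1 : Mt N)‖ := fun i =>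
    (norm_sub_le _ _).trans (by gcongr; exact mt_norm _)
  calc dd g ≤ ∑ _i : Fin 4, (N + 1 + ‖(1 : Mt N)‖) := Finset.sum_le_sum fun i _ => h1 i
    _ = 4 * (N + 1 + ‖(1 : Mt N)‖) := by
      simp
      ring

theorem g_O (i : Fin 4) : (fun g : Fin 4 → G => mt (g i)) =O[⊤] (fun _ => (1 : ℝ)) := by
  rw [isBigO_top]
  exact ⟨N + 1, fun g => by rw [norm_one, mul_one]; exact mt_norm _⟩

theorem x_O (i : Fin 4) : (fun g : Fin 4 → G => mt (g i) - 1) =O[⊤] (fun g => dd g) := by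
  rw [isBigO_top]
  exact ⟨1, fun g => by rw [one_mul, Real.norm_of_nonneg (dd_nonneg g)]; exact le_dd g i⟩

variable {E : Type} [NormedAddCommGroup E]

theorem O_two_one {f : (Fin 4 → G) → E} (h : f =O[⊤] (fun g => dd g ^ 2)) :
    f =O[⊤] (fun g => dd g) := by
  refine h.trans ?_
  have h1 := (dd_O_one (G := G)).mul (isBigO_refl (fun g : Fin 4 → G => dd g) ⊤)
  refine (h1.congr_left fun g => ?_).congr_right fun g => one_mul _
  ring

theorem conj_O {f : (Fin 4 → G) → Mt N} {u : (Fin 4 → G) → ℝ} (h : f =O[⊤] u) :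
    (fun g => (f g)ᴴ) =O[⊤] u := by
  rw [isBigO_top] at h ⊢
  obtain ⟨C, hC⟩ := h
  exact ⟨C, fun g => by rw [frobenius_norm_conjTranspose]; exact hC g⟩

theorem lin_O (F : Mt N →ₗ[ℝ] Mt N) {f : (Fin 4 → G) → Mt N} {u : (Fin 4 → G) → ℝ}
    (h : f =O[⊤] u) : (fun g => F (f g)) =O[⊤] u :=
  ((LinearMap.toContinuousLinearMap F).isBigO_comp f ⊤).trans h

theorem rt_O {f : (Fin 4 → G) → Mt N} {u : (Fin 4 → G) → ℝ}
    (h : f =O[⊤] u) : (fun g => rt N (f g)) =O[⊤] u :=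
  ((LinearMap.toContinuousLinearMap (rt N)).isBigO_comp f ⊤).trans h

theorem mul_O {f f' : (Fin 4 → G) → Mt N} {u v w : (Fin 4 → G) → ℝ} (h : f =O[⊤] u)
    (h' : f' =O[⊤] v) (hw : ∀ g, u g * v g = w g) : (fun g => f g * f' g) =O[⊤] w :=
  (h.mul h').congr_right hw

variable (hG : IsClosed (G : Set (UU N))) (B : LieBasis G n)

include hG in
theorem A_O (i : Fin 4) : (fun g : Fin 4 → G => (mt (g i) - 1) - cA' B (g i)) =O[⊤]
    (fun g => dd g ^ 2) := by
  obtain ⟨C, hC, h⟩ := Pool.Agent.Y274.YMTan.tangent G hG B.X B.orth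
    (fun a t => ⟨B.ex a t, B.ex_eq a t⟩) B.full
  rw [isBigO_top]
  refine ⟨C, fun g => (h (g i)).trans ?_⟩
  rw [Real.norm_of_nonneg (by positivity)]
  gcongr
  exact le_dd g i

include hG in
theorem A_O1 (i : Fin 4) : (fun g : Fin 4 → G => cA' B (g i)) =O[⊤] (fun g => dd g) := by
  have h1 := (x_O (G := G) i).sub (O_two_one (A_O hG B i))
  refine h1.congr_left fun g => ?_
  abel

/-- the product of the last three elements, minus one -/
def yy (g : Fin 4 → G) : Mt N := mt (g 1) * mt (g 2) * mt (g 3) - 1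

theorem yy_eq (g : Fin 4 → G) : yy g = (mt (g 1) - 1) + (mt (g 2) - 1) + (mt (g 3) - 1) +
    ((mt (g 1) - 1) * ((mt (g 2) - 1) * mt (g 3) + (mt (g 3) - 1)) +
      (mt (g 2) - 1) * (mt (g 3) - 1)) := by
  unfold yy
  noncomm_ring

theorem yy_x : (fun g : Fin 4 → G => yy g - ((mt (g 1) - 1) + (mt (g 2) - 1) + (mt (g 3) - 1)))
    =O[⊤] (fun g => dd g ^ 2) := by
  have h1 : (fun g : Fin 4 → G => (mt (g 2) - 1) * mt (g 3) + (mt (g 3) - 1)) =O[⊤]
      (fun g => dd g) := (mul_O (x_O 2) (g_O 3) fun g => mul_one _).add (x_O 3)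
  have h2 := (mul_O (x_O (G := G) 1) h1 fun g => (sq (dd g)).symm).add
    (mul_O (x_O (G := G) 2) (x_O 3) fun g => (sq (dd g)).symm)
  refine h2.congr_left fun g => ?_
  rw [yy_eq]
  abel

theorem yy_O : (fun g : Fin 4 → G => yy g) =O[⊤] (fun g => dd g) := by
  have h1 := (O_two_one (yy_x (G := G))).add (((x_O (G := G) 1).add (x_O 2)).add (x_O 3))
  refine h1.congr_left fun g => ?_
  abel

include hG in
theorem yy_A : (fun g : Fin 4 → G => yy g - (cA' B (g 1) + cA' B (g 2) + cA' B (g 3))) =O[⊤]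
    (fun g => dd g ^ 2) := by
  have h1 := (yy_x (G := G)).add (((A_O hG B 1).add (A_O hG B 2)).add (A_O hG B 3))
  refine h1.congr_left fun g => ?_
  abel

/-- the plaquette minus one -/
def zz (g : Fin 4 → G) : Mt N := mt (g 0) * mt (g 1) * mt (g 2) * mt (g 3) - 1

theorem zz_eq (g : Fin 4 → G) : zz g = (mt (g 0) - 1) + yy g + (mt (g 0) - 1) * yy g := by
  unfold zz yy
  noncomm_ring

theorem zz_O : (fun g : Fin 4 → G => zz g) =O[⊤] (fun g => dd g) := by
  have h1 := ((x_O (G := G) 0).add yy_O).add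
    (O_two_one (mul_O (x_O (G := G) 0) yy_O fun g => (sq (dd g)).symm))
  exact h1.congr_left fun g => (zz_eq g).symm

include hG in
theorem zz_A : (fun g : Fin 4 → G => zz g - ∑ i, cA' B (g i)) =O[⊤] (fun g => dd g ^ 2) := by
  have h1 := ((A_O hG B 0).add (yy_A hG B)).add
    (mul_O (x_O (G := G) 0) yy_O fun g => (sq (dd g)).symm)
  refine h1.congr_left fun g => ?_
  rw [zz_eq, Fin.sum_univ_four]
  abel

include hG in
theorem S_O : (fun g : Fin 4 → G => ∑ i, cA' B (g i)) =O[⊤] (fun g => dd g) := by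
  have h1 := (zz_O (G := G)).sub (O_two_one (zz_A hG B))
  refine h1.congr_left fun g => ?_
  abel

theorem cA'_skew (g : G) : (cA' B g)ᴴ = -cA' B g := by
  unfold cA'
  rw [conjTranspose_sum, ← Finset.sum_neg_distrib]
  refine Finset.sum_congr rfl fun a _ => ?_
  rw [conjTranspose_smul, skewX, smul_neg]
  simp

include hG in
/-- part (a) -/
theorem part_a {T : Mt N} (hT : Tᴴ = -T) : (fun g : Fin 4 → G =>
    rt N (T * T * (mt (g 0) * mt (g 1) * mt (g 2) * mt (g 3))) + ‖T‖ ^ 2 -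
      1 / 4 * gam T (∑ i, cA' B (g i)) (∑ i, cA' B (g i))) =O[⊤] (fun g => dd g ^ 3) := by
  have h1 : (fun g : Fin 4 → G => (zz g)ᴴ * zz g -
      (∑ i, cA' B (g i))ᴴ * ∑ i, cA' B (g i)) =O[⊤] (fun g => dd g ^ 3) := by
    have h2 := (mul_O (conj_O (zz_A hG B)) (zz_O (G := G)) fun g => (pow_succ (dd g) 2).symm).add
      (mul_O (conj_O (S_O hG B)) (zz_A hG B) fun g => (pow_succ' (dd g) 2).symm)
    refine h2.congr_left fun g => ?_
    rw [conjTranspose_sub]
    noncomm_ring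
  have h3 := rt_O (mul_O (isBigO_refl (fun _ : Fin 4 → G => (T * T : Mt N)) ⊤).norm_right h1
    fun g => rfl)
  have h4 : (fun g : Fin 4 → G => ‖(T * T : Mt N)‖ * dd g ^ 3) =O[⊤] (fun g => dd g ^ 3) :=
    isBigO_const_mul_self _ _ _
  have h5 := (h3.trans h4).const_mul_left (-(1 / 2) : ℝ)
  refine h5.congr_left fun g => ?_
  -- the exact identity
  set S : Mt N := ∑ i, cA' B (g i) with hS
  have hSk : Sᴴ = -S := by
    rw [hS, conjTranspose_sum, ← Finset.sum_neg_distrib]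
    exact Finset.sum_congr rfl fun i _ => cA'_skew B (g i)
  have hg : mt (g 0) * mt (g 1) * mt (g 2) * mt (g 3) = zz g + 1 := by
    unfold zz
    abel
  have hu : (zz g + 1)ᴴ * (zz g + 1) = 1 := by
    rw [← hg, ← mt_mul, ← mt_mul, ← mt_mul]
    exact mt_unit' _
  have hM : zz g + (zz g)ᴴ = -((zz g)ᴴ * zz g) := by
    rw [conjTranspose_add, conjTranspose_one] at hu
    have h5 : (zz g)ᴴ * zz g + (zz g)ᴴ + zz g + 1 = ((zz g)ᴴ + 1) * (zz g + 1) := by
      noncomm_ring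
    have h6 : (zz g)ᴴ * zz g + (zz g)ᴴ + zz g = 0 := by
      have h7 : (zz g)ᴴ * zz g + (zz g)ᴴ + zz g + 1 = 0 + 1 := by
        rw [zero_add, h5, hu]
      exact add_right_cancel h7
    rw [eq_neg_iff_add_eq_zero, ← h6]
    abel
  have hTT : (T * T)ᴴ = T * T := by
    rw [conjTranspose_mul, hT, neg_mul_neg]
  have hrt : rt N (T * T * zz g) = rt N (T * T * (zz g)ᴴ) := by
    rw [← rt_conj, conjTranspose_mul, hTT, rt_comm]
  have h8 : rt N (T * T * zz g) = -(1 / 2) * rt N (T * T * ((zz g)ᴴ * zz g)) := by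
    have h9 : rt N (T * T * zz g) + rt N (T * T * (zz g)ᴴ) = -rt N (T * T * ((zz g)ᴴ * zz g)) := by
      rw [← map_add, ← mul_add, hM, mul_neg, map_neg]
    linarith
  have h10 : rt N (T * T) = -‖T‖ ^ 2 := by
    rw [← rt_sq, hT, neg_mul, map_neg, neg_neg]
  have h11 : gam T S S = 2 * rt N (T * T * (S * S)) := by
    rw [gam_apply, mul_add, map_add]
    ring
  have h12 : Sᴴ * S = -(S * S) := by rw [hSk, neg_mul]
  rw [hg, mul_add, mul_one, map_add, h8, h10, h11, mul_sub, map_sub, h12, mul_neg, map_neg]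
  ring

include hG in
/-- part (b) -/
theorem part_b {T : Mt N} (hT : Tᴴ = -T) : (fun g : Fin 4 → G =>
    rt N (T * (T * mt (g 0) - mt (g 0) * T) * (mt (g 1) * mt (g 2) * mt (g 3))) -
      1 / 2 * bet T (cA' B (g 0)) (cA' B (g 1) + cA' B (g 2) + cA' B (g 3))) =O[⊤]
      (fun g => dd g ^ 3) := by
  have h1 : (fun g : Fin 4 → G => Jl T (mt (g 0) - 1) * yy g -
      Jl T (cA' B (g 0)) * (cA' B (g 1) + cA' B (g 2) + cA' B (g 3))) =O[⊤]
      (fun g => dd g ^ 3) := by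
    have h2 := (mul_O (lin_O (Jl T) (A_O hG B 0)) (yy_O (G := G)) fun g =>
        (pow_succ (dd g) 2).symm).add
      (mul_O (lin_O (Jl T) (A_O1 hG B 0)) (yy_A hG B) fun g => (pow_succ' (dd g) 2).symm)
    refine h2.congr_left fun g => ?_
    rw [map_sub]
    noncomm_ring
  have h3 := rt_O (mul_O (isBigO_refl (fun _ : Fin 4 → G => (T : Mt N)) ⊤).norm_right h1
    fun g => rfl)
  have h4 : (fun g : Fin 4 → G => ‖(T : Mt N)‖ * dd g ^ 3) =O[⊤] (fun g => dd g ^ 3) :=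
    isBigO_const_mul_self _ _ _
  refine (h3.trans h4).congr_left fun g => ?_
  set A : Mt N := cA' B (g 0) with hA
  set D : Mt N := cA' B (g 1) + cA' B (g 2) + cA' B (g 3) with hD
  have hAk : Aᴴ = -A := cA'_skew B _
  have hDk : Dᴴ = -D := by
    rw [hD, conjTranspose_add, conjTranspose_add, cA'_skew, cA'_skew, cA'_skew]
    abel
  have hy : mt (g 1) * mt (g 2) * mt (g 3) = yy g + 1 := by
    unfold yy
    abel
  have e1 : rt N (T * (T * mt (g 0) - mt (g 0) * T) * (mt (g 1) * mt (g 2) * mt (g 3))) =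
      rt N (T * (Jl T (mt (g 0) - 1) * yy g)) := by
    have e2 : T * (T * mt (g 0) - mt (g 0) * T) * (mt (g 1) * mt (g 2) * mt (g 3)) =
        T * (Jl T (mt (g 0) - 1) * yy g) + (T * (T * mt (g 0)) - T * (mt (g 0) * T)) := by
      rw [hy, Jl_apply]
      noncomm_ring
    have e3 : rt N (T * (T * mt (g 0))) = rt N (T * (mt (g 0) * T)) := by
      rw [rt_comm]
      congr 1
      noncomm_ring
    rw [e2, (rt N).map_add, (rt N).map_sub, e3]
    ring
  have e4 : rt N (T * (Jl T A * D)) = 1 / 2 * bet T A D := by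
    rw [bet_apply, JJ_apply, Jl_apply]
    have f0 : T * ((T * A - A * T) * D) = T * T * A * D - T * A * T * D := by noncomm_ring
    have f1 : A * (T * (T * D - D * T) - (T * D - D * T) * T) =
        A * T * T * D - A * T * D * T - A * T * D * T + A * D * T * T := by noncomm_ring
    rw [f0, f1]
    simp only [map_add, map_sub]
    have g1 : rt N (T * T * A * D) = rt N (A * D * T * T) := by
      rw [show T * T * A * D = (T * T) * (A * D) by noncomm_ring, rt_comm]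
      congr 1
      noncomm_ring
    have g2 : rt N (T * A * T * D) = rt N (A * T * D * T) := by
      rw [show T * A * T * D = T * (A * T * D) by noncomm_ring, rt_comm]
    have g3 : rt N (A * T * T * D) = rt N (A * D * T * T) := by
      rw [← rt_conj]
      simp only [conjTranspose_mul, hAk, hDk, hT]
      rw [show -D * (-T * (-T * -A)) = (D * T * T) * A by noncomm_ring, rt_comm]
      congr 1
      noncomm_ring
    rw [g1, g2, g3]
    ring
  rw [e1, mul_sub, map_sub, e4]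

include hG in
/-- part (c) -/
theorem part_c (T : Mt N) : (fun g : Fin 4 → G =>
    rt N ((T * (T * mt (g 0) - mt (g 0) * T) - (T * mt (g 0) - mt (g 0) * T) * T) *
      (mt (g 1) * mt (g 2) * mt (g 3))) -
      bet T (cA' B (g 0)) (cA' B (g 1) + cA' B (g 2) + cA' B (g 3))) =O[⊤]
      (fun g => dd g ^ 3) := by
  have h1 : (fun g : Fin 4 → G => JJ T (mt (g 0) - 1) * yy g -
      JJ T (cA' B (g 0)) * (cA' B (g 1) + cA' B (g 2) + cA' B (g 3))) =O[⊤]
      (fun g => dd g ^ 3) := by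
    have h2 := (mul_O (lin_O (JJ T) (A_O hG B 0)) (yy_O (G := G)) fun g =>
        (pow_succ (dd g) 2).symm).add
      (mul_O (lin_O (JJ T) (A_O1 hG B 0)) (yy_A hG B) fun g => (pow_succ' (dd g) 2).symm)
    refine h2.congr_left fun g => ?_
    rw [map_sub]
    noncomm_ring
  refine (rt_O h1).congr_left fun g => ?_
  set A : Mt N := cA' B (g 0) with hA
  set D : Mt N := cA' B (g 1) + cA' B (g 2) + cA' B (g 3) with hD
  have hy : mt (g 1) * mt (g 2) * mt (g 3) = yy g + 1 := by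
    unfold yy
    abel
  have e1 : rt N ((T * (T * mt (g 0) - mt (g 0) * T) - (T * mt (g 0) - mt (g 0) * T) * T) *
      (mt (g 1) * mt (g 2) * mt (g 3))) = rt N (JJ T (mt (g 0) - 1) * yy g) := by
    have e2 : (T * (T * mt (g 0) - mt (g 0) * T) - (T * mt (g 0) - mt (g 0) * T) * T) *
        (mt (g 1) * mt (g 2) * mt (g 3)) = JJ T (mt (g 0) - 1) * yy g +
        (T * (T * mt (g 0) - mt (g 0) * T) - (T * mt (g 0) - mt (g 0) * T) * T) := by
      rw [hy, JJ_apply]
      noncomm_ring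
    rw [e2, map_add, map_sub _ (T * (T * mt (g 0) - mt (g 0) * T)), rt_comm T]
    ring
  have e4 : rt N (JJ T A * D) = bet T A D := by
    rw [rt_comm, ← bet_apply, bet_symm]
  rw [e1, map_sub, e4]

include hG in
/-- **The Taylor expansion of a plaquette term.** -/
theorem plq {T : Mt N} {e : ℝ → G} (he : ∀ t, mt (e t) = NormedSpace.exp (t • T)) :
    ∃ C : ℝ, 0 ≤ C ∧ ∀ (g : Fin 4 → G) (α τ : ℝ), |α| ≤ 1 → |τ| ≤ 1 →
      |D2 T α τ g - α ^ 2 * ‖T‖ ^ 2 - qf B T α τ g| ≤ C * dd g ^ 3 := by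
  have hT := skewT he
  obtain ⟨a, ha⟩ := isBigO_top.1 (part_a hG B hT)
  obtain ⟨b, hb⟩ := isBigO_top.1 (part_b hG B hT)
  obtain ⟨c, hc⟩ := isBigO_top.1 (part_c hG B T)
  refine ⟨|a| + 2 * |b| + |c|, by positivity, fun g α τ hα hτ => ?_⟩
  have ha' := ha g
  have hb' := hb g
  have hc' := hc g
  have hd3 : 0 ≤ dd g ^ 3 := pow_nonneg (dd_nonneg g) 3
  rw [Real.norm_of_nonneg hd3] at ha' hb' hc'
  rw [Real.norm_eq_abs] at ha' hb' hc'
  rw [qf_eq B he]
  have e1 : D2 T α τ g = -(α ^ 2 * rt N (T * T * (mt (g 0) * mt (g 1) * mt (g 2) * mt (g 3))) +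
    2 * (α * τ) * rt N (T * (T * mt (g 0) - mt (g 0) * T) * (mt (g 1) * mt (g 2) * mt (g 3))) +
    τ ^ 2 * rt N ((T * (T * mt (g 0) - mt (g 0) * T) - (T * mt (g 0) - mt (g 0) * T) * T) *
      (mt (g 1) * mt (g 2) * mt (g 3)))) := rfl
  rw [e1]
  set Fa := rt N (T * T * (mt (g 0) * mt (g 1) * mt (g 2) * mt (g 3)))
  set Fb := rt N (T * (T * mt (g 0) - mt (g 0) * T) * (mt (g 1) * mt (g 2) * mt (g 3)))
  set Fc := rt N ((T * (T * mt (g 0) - mt (g 0) * T) - (T * mt (g 0) - mt (g 0) * T) * T) *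
      (mt (g 1) * mt (g 2) * mt (g 3)))
  set ga := gam T (∑ i, cA' B (g i)) (∑ i, cA' B (g i))
  set be := bet T (cA' B (g 0)) (cA' B (g 1) + cA' B (g 2) + cA' B (g 3))
  have e2 : -(α ^ 2 * Fa + 2 * (α * τ) * Fb + τ ^ 2 * Fc) - α ^ 2 * ‖T‖ ^ 2 -
      (-(α ^ 2 / 4) * ga - (α * τ + τ ^ 2) * be) =
      -(α ^ 2 * (Fa + ‖T‖ ^ 2 - 1 / 4 * ga)) - 2 * (α * τ) * (Fb - 1 / 2 * be) -
      τ ^ 2 * (Fc - be) := by ring
  rw [e2]
  have hα2 : |α ^ 2| ≤ 1 := by
    rw [abs_pow]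
    exact pow_le_one₀ (abs_nonneg _) hα
  have hτ2 : |τ ^ 2| ≤ 1 := by
    rw [abs_pow]
    exact pow_le_one₀ (abs_nonneg _) hτ
  have hατ : |α * τ| ≤ 1 := by
    rw [abs_mul]
    exact mul_le_one₀ hα (abs_nonneg _) hτ
  have k1 : |α ^ 2 * (Fa + ‖T‖ ^ 2 - 1 / 4 * ga)| ≤ |a| * dd g ^ 3 := by
    rw [abs_mul]
    calc |α ^ 2| * |Fa + ‖T‖ ^ 2 - 1 / 4 * ga| ≤ 1 * (a * dd g ^ 3) := by gcongr
      _ ≤ |a| * dd g ^ 3 := by
        rw [one_mul]
        exact mul_le_mul_of_nonneg_right (le_abs_self a) hd3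
  have k2 : |2 * (α * τ) * (Fb - 1 / 2 * be)| ≤ 2 * |b| * dd g ^ 3 := by
    rw [abs_mul, abs_mul, abs_two]
    calc 2 * |α * τ| * |Fb - 1 / 2 * be| ≤ 2 * 1 * (b * dd g ^ 3) := by gcongr
      _ ≤ 2 * |b| * dd g ^ 3 := by
        have := mul_le_mul_of_nonneg_right (le_abs_self b) hd3
        linarith
  have k3 : |τ ^ 2 * (Fc - be)| ≤ |c| * dd g ^ 3 := by
    rw [abs_mul]
    calc |τ ^ 2| * |Fc - be| ≤ 1 * (c * dd g ^ 3) := by gcongr
      _ ≤ |c| * dd g ^ 3 := by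
        rw [one_mul]
        exact mul_le_mul_of_nonneg_right (le_abs_self c) hd3
  have k4 := abs_sub (-(α ^ 2 * (Fa + ‖T‖ ^ 2 - 1 / 4 * ga)) - 2 * (α * τ) * (Fb - 1 / 2 * be))
    (τ ^ 2 * (Fc - be))
  have k5 := abs_sub (-(α ^ 2 * (Fa + ‖T‖ ^ 2 - 1 / 4 * ga))) (2 * (α * τ) * (Fb - 1 / 2 * be))
  rw [abs_neg] at k5
  linarith

end asymp

end

end Pool.Agent.Y454.AF
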