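import Mathlib
import Pool.Agent.Y16.AF.StmP
import Pool.Agent.Y454.AF.Plq

/-!
The Taylor expansion of the second derivative of the action (job AF-TAY2).
-/

set_option autoImplicit false

open MeasureTheory Matrix
open scoped Matrix.Norms.Frobenius Topology
open Pool.Agent.Y16.Gluon Pool.Agent.Y16.AF

namespace Pool.Agent.Y454.AF

noncomputable section

variable {N n L : ℕ} {G : Subgroup (UU N)} (B : LieBasis G n)

theorem co_one (a : Fin n) : co B (1 : G) a = 0 := by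
  have h1 : co B (1 : G) a = rt N (B.X a)ᴴ := by
    unfold co
    rw [mt_one, mul_one]
    rfl
  have h2 : rt N (B.X a)ᴴ = -rt N (B.X a)ᴴ := by
    conv_lhs => rw [skewX, map_neg]
    rw [rt_conj]
  rw [h1]
  linarith

theorem co_inv (g : G) (a : Fin n) : co B g⁻¹ a = -co B g a := by
  have h1 : co B g⁻¹ a = rt N ((B.X a)ᴴ * (mt g)ᴴ) := rfl
  have h2 : co B g a = rt N ((B.X a)ᴴ * mt g) := rfl
  rw [h1, h2, ← conjTranspose_mul, rt_conj, rt_comm, skewX, neg_mul, map_neg, neg_neg]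

variable [NeZero L]

theorem sum_dyn (f : Links L → ℝ) (hf : ∀ w, ¬ dyn w → f w = 0) :
    ∑ w : Dy L, f w.1 = ∑ w : Links L, f w := by
  classical
  rw [← Finset.sum_subtype (Finset.univ.filter fun w : Links L => dyn w)
    (fun w => by simp) f, Finset.sum_filter]
  refine Finset.sum_congr rfl fun w _ => ?_
  split_ifs with h
  · rfl
  · exact (hf w h).symm

theorem fx_dyn (U : Links L → G) {w : Links L} (h : dyn w) : fx U w = U w := if_pos h

theorem fx_not (U : Links L → G) {w : Links L} (h : ¬ dyn w) : fx U w = 1 := if_neg h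

theorem co_lg (U : Links L → G) (p : Pq L) (i : Fin 4) (a : Fin n) :
    co B (lg (fx U) p i) a = ∑ w : Dy L, inc p i w.1 * cA B U (w, a) := by
  classical
  have h1 : ∑ w : Dy L, inc p i w.1 * cA B U (w, a) =
      ∑ w : Links L, inc p i w * co B (fx U w) a := by
    rw [← sum_dyn (fun w => inc p i w * co B (fx U w) a) (fun w h => by
      rw [fx_not U h, co_one, mul_zero])]
    refine Finset.sum_congr rfl fun w _ => ?_
    show _ = inc p i w.1 * co B (fx U w.1) a
    rw [fx_dyn U w.2]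
    rfl
  rw [h1]
  unfold lg inc
  cases hl : lv p.2.1 p.2.2 i with
  | none =>
    rw [Finset.sum_eq_zero]
    · exact co_one B a
    · intro w _
      rw [if_neg (by simp), zero_mul]
  | some b =>
    rw [Finset.sum_eq_single (p.1 + ls p.2.2 i, b)]
    · rw [if_pos ⟨rfl, rfl⟩]
      show co B (if sb p.2.2 i then fx U (p.1 + ls p.2.2 i, b) else
        (fx U (p.1 + ls p.2.2 i, b))⁻¹) a = sg p.2.2 i * _
      unfold sg
      split_ifs
      · rw [one_mul]
      · rw [co_inv]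
        ring
    · intro w _ hw
      rw [if_neg, zero_mul]
      rintro ⟨h2, h3⟩
      apply hw
      exact Prod.ext h3.symm (Option.some.inj h2).symm
    · intro h
      exact absurd (Finset.mem_univ _) h

theorem rr_nonneg (U : Links L → G) : 0 ≤ rr U := Finset.sum_nonneg fun _ _ => norm_nonneg _

theorem fx_le (U : Links L → G) (w : Links L) : ‖mt (fx U w) - 1‖ ≤ rr U := by
  by_cases h : dyn w
  · rw [fx_dyn U h]
    have h2 := Finset.single_le_sum (s := Finset.univ) (f := fun w : Dy L => ‖mt (U w.1) - 1‖)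
      (fun w _ => norm_nonneg (mt (U w.1) - 1)) (Finset.mem_univ (⟨w, h⟩ : Dy L))
    unfold rr
    exact h2
  · rw [fx_not U h, mt_one, sub_self, norm_zero]
    exact rr_nonneg U

theorem lg_le (U : Links L → G) (p : Pq L) (i : Fin 4) : ‖mt (lg (fx U) p i) - 1‖ ≤ rr U := by
  unfold lg
  cases hl : lv p.2.1 p.2.2 i with
  | none =>
    show ‖mt (1 : G) - 1‖ ≤ rr U
    rw [mt_one, sub_self, norm_zero]
    exact rr_nonneg U
  | some b =>
    show ‖mt (if sb p.2.2 i then fx U (p.1 + ls p.2.2 i, b) else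
        (fx U (p.1 + ls p.2.2 i, b))⁻¹) - 1‖ ≤ rr U
    split_ifs
    · exact fx_le U _
    · have h1 : mt (fx U (p.1 + ls p.2.2 i, b))⁻¹ - 1 =
          (mt (fx U (p.1 + ls p.2.2 i, b)) - 1)ᴴ := by
        rw [mt_inv, conjTranspose_sub, conjTranspose_one]
      rw [h1, frobenius_norm_conjTranspose]
      exact fx_le U _

theorem dd_le (U : Links L → G) (p : Pq L) : dd (lg (fx U) p) ≤ 4 * rr U := by
  calc dd (lg (fx U) p) ≤ ∑ _i : Fin 4, rr U := Finset.sum_le_sum fun i _ => lg_le U p i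
    _ = 4 * rr U := by simp

theorem one_le_L : (1 : ℝ) ≤ L := by
  have : 1 ≤ L := Nat.one_le_iff_ne_zero.2 (NeZero.ne L)
  exact_mod_cast this

theorem al_le (κ : Fin 3 ⊕ Fin 3) : |al L κ| ≤ 1 := by
  have h1 := one_le_L (L := L)
  have h2 : (1 : ℝ) ≤ (L : ℝ) ^ 2 := one_le_pow₀ h1
  unfold al
  split_ifs
  · rw [abs_of_nonneg (by positivity)]
    exact (div_le_one (by positivity)).2 h2
  · rw [abs_zero]
    exact zero_le_one

theorem ta_le (t : Fin L) (κ : Fin 3 ⊕ Fin 3) : |ta t κ| ≤ 1 := by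
  have h1 := one_le_L (L := L)
  have h3 : ((t : ℕ) : ℝ) ≤ L := by exact_mod_cast t.2.le
  have h4 : (L : ℝ) ≤ (L : ℝ) ^ 2 := by nlinarith
  have h2 : |((t : ℕ) : ℝ) / (L : ℝ) ^ 2| ≤ 1 := by
    rw [abs_of_nonneg (by positivity)]
    exact (div_le_one (by positivity)).2 (h3.trans h4)
  unfold ta
  rcases κ with j | m
  · show |if j = 0 then ((t : ℕ) : ℝ) / (L : ℝ) ^ 2 else 0| ≤ 1
    split_ifs
    · exact h2
    · rw [abs_zero]
      exact zero_le_one
  · show |if m = 2 then 0 else ((t : ℕ) : ℝ) / (L : ℝ) ^ 2| ≤ 1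
    split_ifs
    · rw [abs_zero]
      exact zero_le_one
    · exact h2

theorem al_sq (κ : Fin 3 ⊕ Fin 3) : al L κ ^ 2 = if κ = .inl 0 then 1 / (L : ℝ) ^ 4 else 0 := by
  unfold al
  split_ifs
  · rw [div_pow, one_pow, ← pow_mul]
  · norm_num

theorem card_Pq : Fintype.card (Pq L) = 6 * L ^ 4 := by
  rw [Fintype.card_prod, Fintype.card_prod, Fintype.card_fun, Fintype.card_sum, ZMod.card]
  simp only [Fintype.card_fin]
  ring

theorem sum_al (c : ℝ) : ∑ p : Pq L, al L p.2.2 ^ 2 * c = c := by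
  have h1 := one_le_L (L := L)
  have h0 : (L : ℝ) ≠ 0 := by positivity
  rw [Fintype.sum_prod_type]
  simp only [Fintype.sum_prod_type, al_sq]
  have h2 : ∑ κ : Fin 3 ⊕ Fin 3, (if κ = .inl 0 then 1 / (L : ℝ) ^ 4 else 0) * c =
      1 / (L : ℝ) ^ 4 * c := by
    rw [← Finset.sum_mul, Finset.sum_ite_eq' Finset.univ, if_pos (Finset.mem_univ _)]
  simp only [h2]
  rw [Finset.sum_const, Finset.sum_const, Finset.card_univ, Finset.card_univ, Fintype.card_fun,
    ZMod.card, Fintype.card_fin, Fintype.card_fin, nsmul_eq_mul, nsmul_eq_mul]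
  push_cast
  field_simp

theorem swap5 {α β γ δ ε : Type*} [Fintype α] [Fintype β] [Fintype γ] [Fintype δ] [Fintype ε]
    (f : α → β → γ → δ → ε → ℝ) : ∑ u, ∑ v, ∑ p, ∑ k, ∑ l, f u v p k l =
      ∑ p, ∑ k, ∑ l, ∑ u, ∑ v, f u v p k l := by
  have h := Finset.sum_comm (s := (Finset.univ : Finset (α × β)))
    (t := (Finset.univ : Finset (γ × δ × ε))) (f := fun a b => f a.1 a.2 b.1 b.2.1 b.2.2)
  simpa only [Fintype.sum_prod_type] using h

/-- the coefficients of a plaquette -/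
def EE (T : Mt N) (p : Pq L) (k l : Fin 4) (a b : Fin n) : ℝ :=
  rc (al L p.2.2) (ta p.2.1 p.2.2) k l * (-(Jm B T * Jm B T)) a b + al L p.2.2 ^ 2 * eM B T a b

theorem coef_eq (T : Mt N) (w w' : Dy L) (a b : Fin n) :
    rs (Rm (L := L)) w w' * (-(Jm B T * Jm B T)) a b +
      1 / (L : ℝ) ^ 4 * rs (H01 (L := L)) w w' * eM B T a b =
      ∑ p : Pq L, ∑ k, ∑ l, inc p k w.1 * inc p l w'.1 * EE B T p k l a b := by
  show Rm w.1 w'.1 * (-(Jm B T * Jm B T)) a b +
      1 / (L : ℝ) ^ 4 * H01 w.1 w'.1 * eM B T a b = _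
  unfold Rm H01
  simp only [Finset.sum_mul, Finset.mul_sum]
  rw [← Finset.sum_add_distrib]
  refine Finset.sum_congr rfl fun p _ => ?_
  rw [← Finset.sum_add_distrib]
  refine Finset.sum_congr rfl fun k _ => ?_
  rw [← Finset.sum_add_distrib]
  refine Finset.sum_congr rfl fun l _ => ?_
  unfold EE
  rw [al_sq]
  split_ifs
  · ring
  · ring

theorem sum_qf (T : Mt N) (U : Links L → G) :
    ∑ p : Pq L, qf B T (al L p.2.2) (ta p.2.1 p.2.2) (lg (fx U) p) =
      1 / 2 * ∑ i : Dy L × Fin n, ∑ j : Dy L × Fin n,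
        (rs (Rm (L := L)) i.1 j.1 * (-(Jm B T * Jm B T)) i.2 j.2 +
          1 / (L : ℝ) ^ 4 * rs (H01 (L := L)) i.1 j.1 * eM B T i.2 j.2) *
          (cA B U i * cA B U j) := by
  have h1 : ∀ (p : Pq L) (k l : Fin 4), ∑ a, ∑ b, EE B T p k l a b *
      (co B (lg (fx U) p k) a * co B (lg (fx U) p l) b) =
      ∑ i : Dy L × Fin n, ∑ j : Dy L × Fin n,
        inc p k i.1.1 * inc p l j.1.1 * EE B T p k l i.2 j.2 * (cA B U i * cA B U j) := by
    intro p k l
    rw [Fintype.sum_prod_type_right]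
    refine Finset.sum_congr rfl fun a _ => ?_
    have h2 : ∀ w : Dy L, ∑ j : Dy L × Fin n, inc p k w.1 * inc p l j.1.1 *
        EE B T p k l a j.2 * (cA B U (w, a) * cA B U j) =
        ∑ b, ∑ w' : Dy L, inc p k w.1 * inc p l w'.1 *
        EE B T p k l a b * (cA B U (w, a) * cA B U (w', b)) := fun w =>
      Fintype.sum_prod_type_right _
    simp only [h2]
    rw [Finset.sum_comm]
    refine Finset.sum_congr rfl fun b _ => ?_
    rw [co_lg, co_lg, Finset.sum_mul_sum, Finset.mul_sum]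
    refine Finset.sum_congr rfl fun w _ => ?_
    rw [Finset.mul_sum]
    refine Finset.sum_congr rfl fun w' _ => ?_
    ring
  have h3 : ∀ p : Pq L, qf B T (al L p.2.2) (ta p.2.1 p.2.2) (lg (fx U) p) =
      1 / 2 * ∑ k, ∑ l, ∑ i : Dy L × Fin n, ∑ j : Dy L × Fin n,
        inc p k i.1.1 * inc p l j.1.1 * EE B T p k l i.2 j.2 * (cA B U i * cA B U j) := by
    intro p
    simp only [← h1]
    rfl
  simp only [h3, coef_eq, Finset.sum_mul]
  rw [← Finset.mul_sum]
  congr 1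
  exact (swap5 (fun (i j : Dy L × Fin n) (p : Pq L) (k l : Fin 4) =>
    inc p k i.1.1 * inc p l j.1.1 * EE B T p k l i.2 j.2 * (cA B U i * cA B U j))).symm

/-- **AF-TAY2.** -/
theorem af_tay2 : S_TAY2 := by
  intro N n G hG B T e he
  obtain ⟨C, hC, h⟩ := plq hG B he
  refine ⟨6 * (C * 4 ^ 3), ?_⟩
  intro L _ hL U
  have h1 : S2 T U - ‖T‖ ^ 2 - 1 / 2 * ∑ i : Dy L × Fin n, ∑ j : Dy L × Fin n,
        (rs (Rm (L := L)) i.1 j.1 * (-(Jm B T * Jm B T)) i.2 j.2 +
          1 / (L : ℝ) ^ 4 * rs (H01 (L := L)) i.1 j.1 * eM B T i.2 j.2) *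
          (cA B U i * cA B U j) = ∑ p : Pq L, (D2 T (al L p.2.2) (ta p.2.1 p.2.2) (lg (fx U) p) -
      al L p.2.2 ^ 2 * ‖T‖ ^ 2 - qf B T (al L p.2.2) (ta p.2.1 p.2.2) (lg (fx U) p)) := by
    rw [Finset.sum_sub_distrib, Finset.sum_sub_distrib, sum_al, sum_qf]
    rfl
  rw [h1]
  refine (Finset.abs_sum_le_sum_abs _ _).trans ?_
  have h2 : ∀ p : Pq L, |D2 T (al L p.2.2) (ta p.2.1 p.2.2) (lg (fx U) p) -
      al L p.2.2 ^ 2 * ‖T‖ ^ 2 - qf B T (al L p.2.2) (ta p.2.1 p.2.2) (lg (fx U) p)| ≤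
      C * (4 * rr U) ^ 3 := by
    intro p
    refine (h _ _ _ (al_le _) (ta_le _ _)).trans ?_
    have h3 := dd_nonneg (lg (fx U) p)
    have h4 := dd_le U p
    gcongr
  refine (Finset.sum_le_sum fun p _ => h2 p).trans (le_of_eq ?_)
  rw [Finset.sum_const, Finset.card_univ, card_Pq, nsmul_eq_mul]
  push_cast
  ring

end

end Pool.Agent.Y454.AF
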